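import Mathlib
import Pool.Agent.MP_9873d2_gt.Mg.NotK

set_option autoImplicit false

namespace Pool.Agent.Results.MP_9873d2_gt.NotKSpace

/-- There is a Tychonoff space that is u-equivalent to the real line and is not a k-space. -/
theorem result :
    ∃ (X : Type) (_ : TopologicalSpace X), T35Space X ∧
      Nonempty (UniformEquiv {g : X → ℝ // Continuous g} {g : ℝ → ℝ // Continuous g}) ∧
      ∃ A : Set X, (∀ K : Set X, IsCompact K → IsClosed ((Subtype.val : K → X) ⁻¹' A)) ∧
        ¬ IsClosed A :=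
  ⟨ℝ ⊕ Pool.Agent.MP_9873d2_gt.Zs, inferInstance, inferInstance, Pool.Agent.MP_9873d2_gt.uequiv,
    Pool.Agent.MP_9873d2_gt.isoSet, fun _ hK => Pool.Agent.MP_9873d2_gt.isClosed_trace hK,
    Pool.Agent.MP_9873d2_gt.not_isClosed_isoSet⟩

end Pool.Agent.Results.MP_9873d2_gt.NotKSpace
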